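import Pool.Agent.H30.EV.Max
import Pool.Agent.H30.EV.Lattice

set_option linter.unusedSectionVars false

open Module Submodule H15

namespace H15.EV

variable {ι : Type*} [Fintype ι] {E : Type*} [AddCommGroup E] [Module ℝ E]
  [FiniteDimensional ℝ E] {v : ι → E} {k : ℕ}

/-- functionals from proportional coordinates. -/
theorem exists_functional (g : ι → ℝ) (hg : ∀ c : ι → ℝ, ∑ i, c i • v i = 0 → ∑ i, c i * g i = 0) :
    ∃ φ : E →ₗ[ℝ] ℝ, ∀ i, φ (v i) = g i := by
  classical
  let T : (ι → ℝ) →ₗ[ℝ] E := Fintype.linearCombination ℝ v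
  let G : (ι → ℝ) →ₗ[ℝ] ℝ := Fintype.linearCombination ℝ g
  have h : G ∈ LinearMap.range T.dualMap := by
    rw [LinearMap.range_dualMap_eq_dualAnnihilator_ker, Submodule.mem_dualAnnihilator]
    intro c hc
    have h1 : ∑ i, c i • v i = 0 := by
      have := LinearMap.mem_ker.1 hc
      simpa [T, Fintype.linearCombination_apply] using this
    have h2 := hg c h1
    simpa [G, Fintype.linearCombination_apply] using h2
  obtain ⟨φ, hφ⟩ := h
  refine ⟨φ, fun i => ?_⟩
  have h3 := LinearMap.congr_fun hφ (Pi.single i 1)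
  simpa [T, G, LinearMap.dualMap_apply, Fintype.linearCombination_apply_single] using h3

/-- the relations modulo `U` with support in `Q`. -/
def VV (v : ι → E) (U : Submodule ℝ E) : Submodule ℝ (ι → ℝ) where
  carrier := {c | (∀ i, v i ∈ U → c i = 0) ∧ ∑ i, c i • v i ∈ U}
  zero_mem' := ⟨fun _ _ => rfl, by simp⟩
  add_mem' := by
    rintro a b ⟨ha, ha'⟩ ⟨hb, hb'⟩
    refine ⟨fun i hi => by simp [ha i hi, hb i hi], ?_⟩
    simpa [add_smul, Finset.sum_add_distrib] using U.add_mem ha' hb'
  smul_mem' := by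
    rintro r a ⟨ha, ha'⟩
    refine ⟨fun i hi => by simp [ha i hi], ?_⟩
    simpa [mul_smul, Finset.smul_sum] using U.smul_mem r ha'

theorem mem_VV {U : Submodule ℝ E} {c : ι → ℝ} : c ∈ VV v U ↔
    (∀ i, v i ∈ U → c i = 0) ∧ ∑ i, c i • v i ∈ U := Iff.rfl

/-- dimension count. -/
theorem finrank_VV (U : Submodule ℝ E) (Q : Finset ι) (hQ : ∀ i, i ∈ Q ↔ v i ∉ U) :
    Q.card + finrank ℝ U ≤ finrank ℝ (VV v U) + finrank ℝ E := by
  classical
  let T : (Q → ℝ) →ₗ[ℝ] (E ⧸ U) := U.mkQ ∘ₗ Fintype.linearCombination ℝ (fun i : Q => v i)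
  have h1 := LinearMap.finrank_range_add_finrank_ker T
  have h2 : finrank ℝ (LinearMap.range T) ≤ finrank ℝ (E ⧸ U) := Submodule.finrank_le _
  have h3 := Submodule.finrank_quotient_add_finrank U
  have h4 : finrank ℝ (Q → ℝ) = Q.card := by simp
  -- the extension by zero
  let e : (Q → ℝ) →ₗ[ℝ] (ι → ℝ) :=
    { toFun := fun c i => if h : i ∈ Q then c ⟨i, h⟩ else 0
      map_add' := by
        intro a b; ext i
        by_cases h : i ∈ Q <;> simp [h]
      map_smul' := by
        intro r a; ext i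
        by_cases h : i ∈ Q <;> simp [h] }
  have he : Function.Injective e := by
    intro a b hab
    ext ⟨i, hi⟩
    have := congrFun hab i
    simpa [e, hi] using this
  have hsum : ∀ c : Q → ℝ, ∑ i, e c i • v i = ∑ i : Q, c i • v i := by
    intro c
    have h5 : ∑ i, e c i • v i = ∑ i ∈ Q, e c i • v i := by
      symm
      apply Finset.sum_subset (Finset.subset_univ _)
      intro i _ hi
      simp [e, hi]
    rw [h5, ← Finset.sum_coe_sort Q]
    refine Finset.sum_congr rfl fun i _ => ?_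
    simp [e]
  have h6 : (LinearMap.ker T).map e ≤ VV v U := by
    rintro _ ⟨c, hc, rfl⟩
    refine ⟨fun i hi => ?_, ?_⟩
    · have : i ∉ Q := fun h => (hQ i).1 h hi
      simp [e, this]
    · rw [hsum]
      have h7 : U.mkQ (∑ i : Q, c i • v i) = 0 := by
        have := LinearMap.mem_ker.1 hc
        simpa [T, Fintype.linearCombination_apply] using this
      rwa [Submodule.mkQ_apply, Submodule.Quotient.mk_eq_zero] at h7
  have h8 : finrank ℝ (LinearMap.ker T) ≤ finrank ℝ (VV v U) := by
    rw [(Submodule.equivMapOfInjective e he (LinearMap.ker T)).finrank_eq]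
    exact Submodule.finrank_mono h6
  omega

/-- the structure theorem. -/
theorem exists_pairs (hb : Bdd v k)
    (hfc : ∀ G : Submodule ℝ E, finrank ℝ G ≤ k + 1 → {i | v i ∈ G}.ncard ≤ k + finrank ℝ G)
    (hcard : 2 * finrank ℝ E ≤ Fintype.card ι + 1) {N : ℕ} (hN : 5 * k + 2 + N ≤ finrank ℝ E) :
    ∃ (L : Submodule ℝ E) (p q : Fin N → ι) (α β : Fin N → ℝ) (φ : Fin N → (E →ₗ[ℝ] ℝ)),
      finrank ℝ L ≤ k ∧ H30.EV.Pairs v p q α β φ ∧ ∀ i, H30.EV.zz v p q α β i ∈ L := by
  classical
  obtain ⟨m, A, B, hmk, hbm, hS, hm, hA, hB⟩ := H30.EV.exists_max hb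
  set U := sp v (A ∪ B) with hU
  set L := LL v A B with hL
  let Q : Finset ι := Finset.univ.filter fun i => v i ∉ U
  have hQ : ∀ i, i ∈ Q ↔ v i ∉ U := fun i => by simp [Q]
  have hAB : ∀ i ∈ A ∪ B, v i ∈ U := fun i hi => mem_sp hi
  -- the counting
  have hcomp : {i | v i ∈ U} ⊆ (A ∪ B) ∪ {i | v i ∈ L} := by
    intro i hi
    by_cases hA' : i ∈ A
    · exact Or.inl (Or.inl hA')
    by_cases hB' : i ∈ B
    · exact Or.inl (Or.inr hB')
    exact Or.inr (mem_LL_of_max hbm hS hm hA' hB' hi)
  have hLc : {i | v i ∈ L}.ncard ≤ k + m := by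
    have := hfc L (by omega)
    omega
  have hABc : (A ∪ B).ncard ≤ finrank ℝ U + m := by
    have h1 := finrank_LL (v := v) (X := A) (Y := B)
    rw [finrank_sp_eq hA, finrank_sp_eq hB, ← hU, ← hL] at h1
    have h2 := Set.ncard_union_le A B
    omega
  have hUc : {i | v i ∈ U}.ncard ≤ finrank ℝ U + m + (k + m) := by
    have h1 := Set.ncard_le_ncard hcomp (Set.toFinite _)
    have h2 := Set.ncard_union_le (A ∪ B) {i | v i ∈ L}
    omega
  have hQc : Q.card + {i | v i ∈ U}.ncard = Fintype.card ι := by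
    have h1 : (Q : Set ι) = {i | v i ∈ U}ᶜ := by
      ext i
      simp [Q]
    have h2 := Set.ncard_add_ncard_compl {i | v i ∈ U}
    rw [← h1, Set.ncard_coe_finset, Nat.card_eq_fintype_card] at h2
    omega
  have hdim := finrank_VV (v := v) U Q hQ
  have hmU : m ≤ finrank ℝ U := by
    rw [← hm]
    exact Submodule.finrank_mono (inf_le_left.trans (sp_mono Set.subset_union_left))
  -- the lattice
  have h0 : ∀ c ∈ VV v U, ∀ i ∈ A ∪ B, c i = 0 := fun c hc i hi => hc.1 i (hAB i hi)
  have hV : ∀ c ∈ VV v U, (fun i => max (c i) 0) ∈ VV v U := by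
    intro c hc
    refine ⟨fun i hi => ?_, H30.EV.pos_part_mem hbm hS hm hc.2 (h0 c hc)⟩
    simp [hc.1 i hi]
  have h1 : ∀ b ∈ VV v U, ∀ i, b i ≠ 0 → ∃ l, l ≠ i ∧ b l ≠ 0 := by
    intro b hb' i hi
    by_contra hcon
    push Not at hcon
    have h2 : ∑ l, b l • v l = b i • v i :=
      Finset.sum_eq_single i (fun l _ hl => by rw [hcon l hl, zero_smul])
        (fun h => absurd (Finset.mem_univ i) h)
    have h3 := hb'.2
    rw [h2] at h3
    exact hi (hb'.1 i ((U.smul_mem_iff hi).1 h3))
  obtain ⟨p, q, α, β, hp, hq, hpq, hα, hβ, hb2, hprop⟩ := H30.EV.exists_two (VV v U) hV h1 Q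
    (fun c hc i hi => hc.1 i (by simpa [hQ] using hi)) (N := N) (by omega)
  -- the functionals
  have hφ : ∀ i, ∃ φ : E →ₗ[ℝ] ℝ, ∀ l, φ (v l) =
      if l = p i then β i else if l = q i then - α i else 0 := by
    intro i
    refine exists_functional _ fun c hc => ?_
    obtain ⟨b, hbV, hbp, hbq, hb0⟩ := hb2 i
    have hpU : v (p i) ∉ U := fun h => by
      have := hbV.1 _ h
      rw [hbp] at this
      exact (hα i).ne' this
    have hqU : v (q i) ∉ U := fun h => by
      have := hbV.1 _ h
      rw [hbq] at this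
      exact (hβ i).ne' this
    let c' : ι → ℝ := fun l => if v l ∈ U then 0 else c l
    have hc' : c' ∈ VV v U := by
      refine ⟨fun l hl => if_pos hl, ?_⟩
      have h2 : ∑ l, c' l • v l = - ∑ l, (if v l ∈ U then c l • v l else 0) := by
        rw [eq_neg_iff_add_eq_zero, ← Finset.sum_add_distrib]
        refine Eq.trans (Finset.sum_congr rfl fun l _ => ?_) hc
        by_cases hl : v l ∈ U <;> simp [c', hl]
      rw [h2]
      refine U.neg_mem (U.sum_mem fun l _ => ?_)
      by_cases hl : v l ∈ U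
      · simpa [hl] using U.smul_mem _ hl
      · simp [hl]
    have h3 := hprop i c' hc'
    simp only [c', hpU, hqU, if_false] at h3
    have hpq' : q i ≠ p i := (hpq i i).symm
    have h4 : ∑ l, c l * (if l = p i then β i else if l = q i then - α i else 0) =
        c (p i) * β i + c (q i) * (- α i) := by
      have h5 : ∀ l, c l * (if l = p i then β i else if l = q i then - α i else 0) =
          (if l = p i then c (p i) * β i else 0) + (if l = q i then c (q i) * (- α i) else 0) := by
        intro l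
        by_cases hlp : l = p i
        · subst hlp
          simp [hpq i i]
        · by_cases hlq : l = q i
          · subst hlq
            simp [hpq']
          · simp [hlp, hlq]
      rw [Finset.sum_congr rfl fun l _ => h5 l, Finset.sum_add_distrib]
      simp
    rw [h4]
    linarith
  choose φ hφ' using hφ
  refine ⟨L, p, q, α, β, φ, by omega, ⟨hp, hq, hpq, hα, hβ, fun i => by simp [hφ'],
    fun i => ?_, fun i l hl hl' => by simp [hφ', hl, hl']⟩, fun i => ?_⟩
  · rw [hφ', if_neg (hpq i i).symm, if_pos rfl]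
  · obtain ⟨b, hbV, hbp, hbq, hb0⟩ := hb2 i
    have h2 : ∑ l, b l • v l = H30.EV.zz v p q α β i := by
      have hpq' : p i ≠ q i := hpq i i
      rw [← Finset.sum_subset (Finset.subset_univ {p i, q i}), Finset.sum_pair hpq', hbp, hbq]
      · rfl
      · intro l _ hl
        simp only [Finset.mem_insert, Finset.mem_singleton, not_or] at hl
        rw [hb0 l hl.1 hl.2, zero_smul]
    rw [← h2]
    refine H30.EV.nonneg_mem_LL hbm hS hm hbV.2 (h0 b hbV) fun l => ?_
    by_cases hlp : l = p i
    · rw [hlp, hbp]; exact (hα i).le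
    by_cases hlq : l = q i
    · rw [hlq, hbq]; exact (hβ i).le
    · rw [hb0 l hlp hlq]

end H15.EV
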